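import Pool.Agent.Q25.Divisors

/-!
# `B(2 q^b) = 2`

A divisor of `x^(2 q^b) - 1` is, up to sign, `G_0(x) G_1(x) G_2(x^q) ⋯ G_b(x^(q^(b-1)))` with
`G_0 ∈ {1, x - 1, x + 1, x^2 - 1}` and `G_i ∈ {1, Φ_q(y), Φ_q(-y), Φ_q(y) Φ_q(-y) = Φ_q(y^2)}`, `i ≥ 1`. Each `G_i`, `i ≥ 1`, has
coefficients `0, 1, -1` and exponents which are pairwise incongruent modulo `q`. So `G_i(y) F(y^q)` is flat when `F` is
flat, and the product of all factors except `G_0` is flat.
-/

namespace Pool.Agent.Results.MP_0523aa_nt.HeightTwo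

open Polynomial Pool.Agent.Q25.Divisors

/-- all coefficients are `0`, `1` or `-1` -/
def Flat (f : ℤ[X]) : Prop := ∀ i, |f.coeff i| ≤ 1

/-- a polynomial with `q` terms whose exponents are incongruent modulo `q`, times `F(x^q)` -/
lemma flat_mul_expand (q : ℕ) (hq : 0 < q) (c : ℕ → ℤ) (e : ℕ → ℕ) (hc : ∀ i, |c i| ≤ 1)
    (he : ∀ i < q, ∀ j < q, e i ≡ e j [MOD q] → i = j) (F : ℤ[X]) (hF : Flat F) :
    Flat ((∑ i ∈ Finset.range q, C (c i) * X ^ (e i)) * expand ℤ q F) := by
  intro N
  rw [Finset.sum_mul, finsetSum_coeff]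
  have key : ∀ i, ((C (c i) * X ^ (e i)) * expand ℤ q F).coeff N =
      if e i ≤ N ∧ q ∣ N - e i then c i * F.coeff ((N - e i) / q) else 0 := by
    intro i
    rw [mul_assoc, coeff_C_mul, coeff_X_pow_mul']
    by_cases h1 : e i ≤ N
    · rw [if_pos h1, coeff_expand hq]
      by_cases h2 : q ∣ N - e i
      · rw [if_pos h2, if_pos ⟨h1, h2⟩]
      · rw [if_neg h2, if_neg (fun h => h2 h.2), mul_zero]
    · rw [if_neg h1, if_neg (fun h => h1 h.1), mul_zero]
  simp_rw [key]
  by_cases hex : ∃ i < q, e i ≤ N ∧ q ∣ N - e i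
  · obtain ⟨i, hi, h1, h2⟩ := hex
    rw [Finset.sum_eq_single i]
    · rw [if_pos ⟨h1, h2⟩, abs_mul]
      have := mul_le_mul (hc i) (hF ((N - e i) / q)) (abs_nonneg _) zero_le_one
      simpa using this
    · intro j hj hne
      rw [Finset.mem_range] at hj
      rw [if_neg]
      rintro ⟨h3, h4⟩
      apply hne
      refine he j hj i hi ?_
      have a1 : e j ≡ N [MOD q] := (Nat.modEq_iff_dvd' h3).mpr h4
      have a2 : e i ≡ N [MOD q] := (Nat.modEq_iff_dvd' h1).mpr h2
      exact a1.trans a2.symm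
    · intro h; exact absurd (Finset.mem_range.mpr hi) h
  · rw [Finset.sum_eq_zero]
    · simp
    · intro i hi
      rw [if_neg]
      intro h
      exact hex ⟨i, Finset.mem_range.mp hi, h⟩

variable {q : ℕ} (hq : q.Prime) (h2 : q ≠ 2)

include hq in
lemma phi_q : cyclotomic q ℤ = ∑ i ∈ Finset.range q, X ^ i := cyclotomic_prime ℤ q (hp := ⟨hq⟩)

include hq h2 in
lemma phi_2q : cyclotomic (2 * q) ℤ = ∑ i ∈ Finset.range q, C ((-1) ^ i : ℤ) * X ^ i := by
  have hodd : Odd q := hq.odd_of_ne_two h2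
  have hn : ¬ 2 ∣ q := fun h => (Nat.not_even_iff_odd.mpr hodd) (even_iff_two_dvd.mpr h)
  have h1 := cyclotomic_expand_eq_cyclotomic_mul Nat.prime_two hn ℤ
  -- multiply by `(x - 1)(x + 1)`
  have e1 : expand ℤ 2 (cyclotomic q ℤ) * (X ^ 2 - 1) = (X ^ q) ^ 2 - 1 := by
    rw [phi_q hq, map_sum]
    simp only [map_pow, expand_X]
    have := geom_sum_mul (X ^ 2 : ℤ[X]) q
    rw [this]; ring
  have e2 : cyclotomic q ℤ * (X - 1) = X ^ q - 1 := by
    rw [phi_q hq]; exact geom_sum_mul X q
  have e3 : (∑ i ∈ Finset.range q, C ((-1) ^ i : ℤ) * X ^ i) * (X + 1) = X ^ q + 1 := by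
    have h3 : (∑ i ∈ Finset.range q, C ((-1) ^ i : ℤ) * X ^ i) = ∑ i ∈ Finset.range q, (-X : ℤ[X]) ^ i := by
      apply Finset.sum_congr rfl
      intro i _
      rw [neg_pow (X : ℤ[X]) i, C_pow, C_neg, C_1]
    have h4 := geom_sum_mul (-X : ℤ[X]) q
    rw [h3, show (X + 1 : ℤ[X]) = -(-X - 1) by ring, mul_neg, h4, hodd.neg_pow]; ring
  have hne : (X ^ q - 1 : ℤ[X]) * (X + 1) ≠ 0 :=
    mul_ne_zero (X_pow_sub_C_ne_zero hq.pos 1) (by exact X_add_C_ne_zero 1)
  apply mul_right_cancel₀ hne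
  have e4 : cyclotomic (2 * q) ℤ * ((X ^ q - 1) * (X + 1)) = (X ^ q) ^ 2 - 1 := by
    rw [← e1, h1, ← e2, mul_comm 2 q]; ring
  rw [e4]
  linear_combination -(X ^ q - 1 : ℤ[X]) * e3

include hq h2 in
lemma phi_mul : cyclotomic q ℤ * cyclotomic (2 * q) ℤ = ∑ i ∈ Finset.range q, C (1 : ℤ) * X ^ (2 * i) := by
  have hodd : Odd q := hq.odd_of_ne_two h2
  have hn : ¬ 2 ∣ q := fun h => (Nat.not_even_iff_odd.mpr hodd) (even_iff_two_dvd.mpr h)
  have h1 := cyclotomic_expand_eq_cyclotomic_mul Nat.prime_two hn ℤ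
  rw [mul_comm 2 q, mul_comm (cyclotomic q ℤ), ← h1, phi_q hq, map_sum]
  apply Finset.sum_congr rfl
  intro i _
  rw [map_pow, expand_X, C_1, one_mul, ← pow_mul]

/-- the factor of level `i + 1` -/
noncomputable def lev (q : ℕ) (s t : Bool) : ℤ[X] :=
  (if s then cyclotomic q ℤ else 1) * (if t then cyclotomic (2 * q) ℤ else 1)

include hq h2 in
lemma flat_lev (s t : Bool) (F : ℤ[X]) (hF : Flat F) : Flat (lev q s t * expand ℤ q F) := by
  have hodd : Odd q := hq.odd_of_ne_two h2
  have hself : ∀ i < q, ∀ j < q, i ≡ j [MOD q] → i = j := by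
    intro i hi j hj h
    have := h
    unfold Nat.ModEq at this
    rwa [Nat.mod_eq_of_lt hi, Nat.mod_eq_of_lt hj] at this
  cases s <;> cases t <;> simp only [lev, if_true, Bool.false_eq_true, if_false, one_mul, mul_one]
  · have := flat_mul_expand q hq.pos (fun i => if i = 0 then 1 else 0) id
      (fun i => by split_ifs <;> simp) hself F hF
    have e : (∑ i ∈ Finset.range q, C ((fun i => if i = 0 then (1 : ℤ) else 0) i) * X ^ (id i)) = 1 := by
      rw [Finset.sum_eq_single 0]
      · simp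
      · intro b _ hb; simp [hb]
      · intro h; exact absurd (Finset.mem_range.mpr hq.pos) h
    rw [e, one_mul] at this
    exact this
  · rw [phi_2q hq h2]
    exact flat_mul_expand q hq.pos (fun i => (-1) ^ i) id (fun i => by simp) hself F hF
  · rw [phi_q hq]
    have := flat_mul_expand q hq.pos (fun _ => 1) id (fun i => by simp) hself F hF
    simpa using this
  · rw [phi_mul hq h2]
    refine flat_mul_expand q hq.pos (fun _ => 1) (fun i => 2 * i) (fun i => by simp) ?_ F hF
    intro i hi j hj h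
    have hcop : Nat.gcd q 2 = 1 := (Nat.coprime_two_right).mpr hodd
    exact hself i hi j hj (Nat.ModEq.cancel_left_of_coprime hcop h)

/-- the product of all factors of positive level -/
noncomputable def pos (q b : ℕ) (s t : ℕ → Bool) : ℤ[X] :=
  ∏ i ∈ Finset.range b, ((if s i then cyclotomic (q ^ (i + 1)) ℤ else 1) * (if t i then cyclotomic (2 * q ^ (i + 1)) ℤ else 1))

include hq h2 in
lemma flat_pos (b : ℕ) (s t : ℕ → Bool) : Flat (pos q b s t) := by
  induction b generalizing s t with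
  | zero =>
    intro i
    simp only [pos, Finset.range_zero, Finset.prod_empty, coeff_one]
    split_ifs <;> simp
  | succ b ih =>
    have e : pos q (b + 1) s t = lev q (s 0) (t 0) * expand ℤ q (pos q b (fun i => s (i + 1)) (fun i => t (i + 1))) := by
      rw [pos, Finset.prod_range_succ', mul_comm, lev, pow_one]
      congr 1
      rw [pos, map_prod]
      apply Finset.prod_congr rfl
      intro i _
      rw [map_mul]
      congr 1
      · cases s (i + 1)
        · simp
        · simp only [if_true]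
          rw [cyclotomic_expand_eq_cyclotomic hq (dvd_pow_self q (Nat.succ_ne_zero i)), ← pow_succ]
      · cases t (i + 1)
        · simp
        · simp only [if_true]
          rw [cyclotomic_expand_eq_cyclotomic hq (Dvd.dvd.mul_left (dvd_pow_self q (Nat.succ_ne_zero i)) 2), mul_assoc,
            ← pow_succ]
    rw [e]
    exact flat_lev hq h2 _ _ _ (ih _ _)

include hq h2 in
lemma divisors_eq (b : ℕ) : (2 * q ^ b).divisors =
    (Finset.range (b + 1)).image (fun i => q ^ i) ∪ (Finset.range (b + 1)).image (fun i => 2 * q ^ i) := by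
  have hne : 2 * q ^ b ≠ 0 := mul_ne_zero two_ne_zero (pow_ne_zero _ hq.pos.ne')
  ext d
  rw [Nat.mem_divisors, Finset.mem_union, Finset.mem_image, Finset.mem_image]
  constructor
  · rintro ⟨h, -⟩
    obtain ⟨x, y, hx, hy, rfl⟩ := (Nat.dvd_mul).mp h
    obtain ⟨i, hi, rfl⟩ := (Nat.dvd_prime_pow hq).mp hy
    rcases (Nat.dvd_prime Nat.prime_two).mp hx with rfl | rfl
    · exact Or.inl ⟨i, Finset.mem_range.mpr (by omega), by ring⟩
    · exact Or.inr ⟨i, Finset.mem_range.mpr (by omega), rfl⟩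
  · rintro (⟨i, hi, rfl⟩ | ⟨i, hi, rfl⟩)
    · rw [Finset.mem_range] at hi
      exact ⟨Dvd.dvd.mul_left (pow_dvd_pow q (by omega)) 2, hne⟩
    · rw [Finset.mem_range] at hi
      exact ⟨mul_dvd_mul_left 2 (pow_dvd_pow q (by omega)), hne⟩

include hq h2 in
/-- a product of distinct cyclotomic polynomials of index dividing `2 q^b` -/
lemma prod_eq (b : ℕ) (T : Finset ℕ) (hT : T ⊆ (2 * q ^ b).divisors) :
    ∏ d ∈ T, cyclotomic d ℤ =
      ((if 1 ∈ T then (X - 1) else 1) * (if 2 ∈ T then (X + 1) else 1)) *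
        pos q b (fun i => decide (q ^ (i + 1) ∈ T)) (fun i => decide (2 * q ^ (i + 1) ∈ T)) := by
  have hodd : Odd q := hq.odd_of_ne_two h2
  have h1 : ∏ d ∈ T, cyclotomic d ℤ = ∏ d ∈ (2 * q ^ b).divisors, if d ∈ T then cyclotomic d ℤ else 1 := by
    rw [Finset.prod_ite_mem, Finset.inter_eq_right.mpr hT]
  have hdisj : Disjoint ((Finset.range (b + 1)).image (fun i => q ^ i)) ((Finset.range (b + 1)).image (fun i => 2 * q ^ i)) := by
    rw [Finset.disjoint_left]
    intro d hd hd'
    obtain ⟨i, -, rfl⟩ := Finset.mem_image.mp hd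
    obtain ⟨j, -, hj⟩ := Finset.mem_image.mp hd'
    have : Odd (q ^ i) := hodd.pow
    rw [← hj] at this
    exact (Nat.not_even_iff_odd.mpr this) (even_two_mul _)
  rw [h1, divisors_eq hq h2, Finset.prod_union hdisj, Finset.prod_image, Finset.prod_image,
    Finset.prod_range_succ', Finset.prod_range_succ', pos]
  · simp only [pow_zero, mul_one, cyclotomic_one, cyclotomic_two, decide_eq_true_eq]
    rw [Finset.prod_mul_distrib]
    ring
  · intro i _ j _ h
    have h3 : 2 * q ^ i = 2 * q ^ j := h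
    exact Nat.pow_right_injective hq.two_le (Nat.eq_of_mul_eq_mul_left two_pos h3)
  · intro i _ j _ h
    exact Nat.pow_right_injective hq.two_le h

lemma natAbs_le_two (P : ℤ[X]) (hP : Flat P) (s t : Prop) [Decidable s] [Decidable t] (i : ℕ) :
    ((((if s then (X - 1) else 1) * (if t then (X + 1) else 1)) * P).coeff i).natAbs ≤ 2 := by
  have h0 := hP i
  have h1 : |(X * P).coeff i| ≤ 1 := by
    cases i with
    | zero => simp
    | succ i => rw [coeff_X_mul]; exact hP i
  have h3 : |(X ^ 2 * P).coeff i| ≤ 1 := by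
    rw [coeff_X_pow_mul']
    split_ifs
    · exact hP _
    · simp
  rw [abs_le] at h0 h1 h3
  by_cases hs : s <;> by_cases ht : t
  · rw [if_pos hs, if_pos ht]
    have e : (X - 1) * (X + 1) * P = X ^ 2 * P - P := by ring
    rw [e, coeff_sub]; omega
  · rw [if_pos hs, if_neg ht]
    have e : (X - 1) * 1 * P = X * P - P := by ring
    rw [e, coeff_sub]; omega
  · rw [if_neg hs, if_pos ht]
    have e : 1 * (X + 1) * P = X * P + P := by ring
    rw [e, coeff_add]; omega
  · rw [if_neg hs, if_neg ht]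
    have e : 1 * 1 * P = P := by ring
    rw [e]; omega

/-- `B(2 q^b) = 2` for every odd prime `q` and every `b ≥ 1`: the largest height of a divisor of `x^(2 q^b) - 1` in
`ℤ[x]` is `2`. -/
theorem result (q : ℕ) (hq : q.Prime) (h2 : q ≠ 2) (b : ℕ) (hb : 1 ≤ b) :
    IsGreatest {h : ℕ | ∃ f : ℤ[X], f ∣ X ^ (2 * q ^ b) - 1 ∧ height f = h} 2 := by
  have hpos : 0 < 2 * q ^ b := Nat.mul_pos two_pos (pow_pos hq.pos b)
  have upper : ∀ f : ℤ[X], f ∣ X ^ (2 * q ^ b) - 1 → height f ≤ 2 := by
    intro f hf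
    obtain ⟨T, hT, hA⟩ := exists_divisors _ hpos f hf
    rw [height_of_associated hA, prod_eq hq h2 b T hT]
    exact height_le _ _ (fun i => natAbs_le_two _ (flat_pos hq h2 b _ _) _ _ i)
  constructor
  · refine ⟨(X + 1) * cyclotomic q ℤ, ?_, ?_⟩
    · rw [← cyclotomic_two, ← prod_cyclotomic_eq_X_pow_sub_one hpos ℤ]
      have : cyclotomic 2 ℤ * cyclotomic q ℤ = ∏ d ∈ ({2, q} : Finset ℕ), cyclotomic d ℤ := by
        rw [Finset.prod_insert (by simpa using Ne.symm h2), Finset.prod_singleton]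
      rw [this]
      apply Finset.prod_dvd_prod_of_subset
      intro d hd
      rw [Nat.mem_divisors]
      refine ⟨?_, hpos.ne'⟩
      simp only [Finset.mem_insert, Finset.mem_singleton] at hd
      rcases hd with rfl | rfl
      · exact dvd_mul_right _ _
      · exact Dvd.dvd.mul_left (dvd_pow_self _ (by omega)) _
    · apply le_antisymm
      · refine upper _ ?_
        rw [← cyclotomic_two, ← prod_cyclotomic_eq_X_pow_sub_one hpos ℤ]
        have : cyclotomic 2 ℤ * cyclotomic q ℤ = ∏ d ∈ ({2, q} : Finset ℕ), cyclotomic d ℤ := by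
          rw [Finset.prod_insert (by simpa using Ne.symm h2), Finset.prod_singleton]
        rw [this]
        apply Finset.prod_dvd_prod_of_subset
        intro d hd
        rw [Nat.mem_divisors]
        refine ⟨?_, hpos.ne'⟩
        simp only [Finset.mem_insert, Finset.mem_singleton] at hd
        rcases hd with rfl | rfl
        · exact dvd_mul_right _ _
        · exact Dvd.dvd.mul_left (dvd_pow_self _ (by omega)) _
      · refine le_trans (le_of_eq ?_) (le_height _ 1)
        have e : ((X + 1) * cyclotomic q ℤ).coeff 1 = 2 := by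
          rw [phi_q hq, add_mul, one_mul, coeff_add, show (1 : ℕ) = 0 + 1 by rfl, coeff_X_mul, finsetSum_coeff,
            finsetSum_coeff]
          simp only [coeff_X_pow]
          rw [Finset.sum_ite_eq, Finset.sum_ite_eq, if_pos (Finset.mem_range.mpr hq.pos),
            if_pos (Finset.mem_range.mpr hq.one_lt)]
          rfl
        rw [e]; rfl
  · rintro h ⟨f, hf, rfl⟩
    exact upper f hf

end Pool.Agent.Results.MP_0523aa_nt.HeightTwo
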